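import Mathlib
import Pool.Agent.W658.TIDefs
import Pool.Agent.W658.States

/-!
# Irreducible representations with maximal kernel

Every unital C*-algebra has an irreducible representation whose kernel is a maximal ideal.
-/

set_option autoImplicit false

open scoped ComplexOrder InnerProductSpace

namespace Pool.Agent.TH251.TI

open Pool.Agent.W658.TypeI Pool.Agent.W658.Irrep

/-- two-sided ideals, as sets -/
structure IsId {C : Type} [CStarAlgebra C] (I : Set C) : Prop where
  zero : (0 : C) ∈ I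
  add : ∀ a ∈ I, ∀ b ∈ I, a + b ∈ I
  left : ∀ a, ∀ b ∈ I, a * b ∈ I
  right : ∀ a ∈ I, ∀ b, a * b ∈ I

variable {C : Type} [CStarAlgebra C]

theorem exists_max [Nontrivial C] : ∃ I : Set C, IsId I ∧ (1 : C) ∉ I ∧
    ∀ J : Set C, IsId J → I ⊆ J → (1 : C) ∉ J → J = I := by
  obtain ⟨I, -, hI⟩ := zorn_subset_nonempty {I : Set C | IsId I ∧ (1 : C) ∉ I}
    (by
      intro c hc hch hne
      refine ⟨⋃₀ c, ⟨⟨?_, ?_, ?_, ?_⟩, ?_⟩, fun s hs => Set.subset_sUnion_of_mem hs⟩
      · obtain ⟨s, hs⟩ := hne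
        exact ⟨s, hs, (hc hs).1.zero⟩
      · rintro a ⟨s, hs, ha⟩ b ⟨t, ht, hb⟩
        rcases hch.total hs ht with h | h
        · exact ⟨t, ht, (hc ht).1.add a (h ha) b hb⟩
        · exact ⟨s, hs, (hc hs).1.add a ha b (h hb)⟩
      · rintro a b ⟨s, hs, hb⟩
        exact ⟨s, hs, (hc hs).1.left a b hb⟩
      · rintro a ⟨s, hs, ha⟩ b
        exact ⟨s, hs, (hc hs).1.right a ha b⟩
      · rintro ⟨s, hs, h1⟩
        exact (hc hs).2 h1)
    {0} ⟨⟨rfl, by
      rintro a ha b hb
      rw [Set.mem_singleton_iff] at *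
      rw [ha, hb, add_zero], by
      rintro a b hb
      rw [Set.mem_singleton_iff] at *
      rw [hb, mul_zero], by
      rintro a ha b
      rw [Set.mem_singleton_iff] at *
      rw [ha, zero_mul]⟩, by
      rw [Set.mem_singleton_iff]; exact one_ne_zero⟩
  refine ⟨I, hI.1.1, hI.1.2, fun J hJ hIJ h1 => ?_⟩
  exact Set.Subset.antisymm (hI.2 ⟨hJ, h1⟩ hIJ) hIJ

/-- an ideal as a subspace -/
def IsId.sub {I : Set C} (hI : IsId I) : Submodule ℂ C where
  carrier := I
  zero_mem' := hI.zero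
  add_mem' := fun {a b} ha hb => hI.add a ha b hb
  smul_mem' := fun c x hx => by
    have := hI.left (c • 1) x hx
    rwa [smul_mul_assoc, one_mul] at this

lemma one_le_norm {I : Set C} (hI : IsId I) (h1 : (1 : C) ∉ I) (x : C) (hx : x ∈ I) :
    1 ≤ ‖1 - x‖ := by
  by_contra h
  push Not at h
  have hu : IsUnit x := by
    have := (Units.oneSub (1 - x) h).isUnit
    rwa [Units.val_oneSub, sub_sub_cancel] at this
  obtain ⟨u, rfl⟩ := hu
  apply h1
  have := hI.right _ hx (↑u⁻¹)
  rwa [Units.mul_inv] at this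

/-- the states which vanish on `I` -/
def St (I : Set C) : Set (C → ℂ) :=
  {f | (∀ a b, f (a + b) = f a + f b) ∧ (∀ (c : ℂ) a, f (c • a) = c * f a) ∧
    (∀ a, 0 ≤ f (star a * a)) ∧ f 1 = 1 ∧ (∀ a, ‖f a‖ ≤ ‖a‖) ∧ ∀ a ∈ I, f a = 0}

lemma St_nonempty {I : Set C} (hI : IsId I) (h1 : (1 : C) ∉ I) : (St I).Nonempty := by
  have hnt : Nontrivial C := ⟨1, 0, fun h => h1 (h ▸ hI.zero)⟩
  let p : Submodule ℂ C := hI.sub
  have hq : ‖(p.mkQ 1 : C ⧸ p)‖ = 1 := by
    apply le_antisymm
    · refine (Submodule.Quotient.norm_mk_le p (1 : C)).trans ?_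
      rw [CStarRing.norm_one]
    · rw [show (p.mkQ 1 : C ⧸ p) = Submodule.Quotient.mk 1 from rfl]
      rw [le_iff_forall_pos_lt_add]
      intro ε hε
      obtain ⟨m, hm, hm2⟩ := Submodule.Quotient.norm_mk_lt (S := p) (Submodule.Quotient.mk 1) hε
      have hm3 : m - 1 ∈ p := (Submodule.Quotient.eq p).1 hm
      have := one_le_norm hI h1 (1 - m) (by
        have : (-(m - 1)) ∈ p := p.neg_mem hm3
        rwa [neg_sub] at this)
      rw [sub_sub_cancel] at this
      linarith
  obtain ⟨g, hg1, hg2⟩ := exists_dual_vector ℂ (p.mkQ 1 : C ⧸ p) (by rw [hq]; norm_num)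
  rw [hq] at hg2
  let f : C →L[ℂ] ℂ := (g.toLinearMap.comp p.mkQ).mkContinuous 1 (fun x => by
    rw [one_mul]
    show ‖g (p.mkQ x)‖ ≤ ‖x‖
    refine (g.le_opNorm _).trans ?_
    rw [hg1, one_mul]
    exact Submodule.Quotient.norm_mk_le p x)
  have hf : ∀ x, f x = g (p.mkQ x) := fun x => rfl
  have hfn : ∀ x, ‖f x‖ ≤ ‖x‖ := by
    intro x
    have := (g.toLinearMap.comp p.mkQ).mkContinuous_norm_le zero_le_one (fun x => by
      rw [one_mul]
      show ‖g (p.mkQ x)‖ ≤ ‖x‖
      refine (g.le_opNorm _).trans ?_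
      rw [hg1, one_mul]
      exact Submodule.Quotient.norm_mk_le p x)
    refine (f.le_opNorm x).trans ?_
    nlinarith [norm_nonneg x, norm_nonneg f]
  have hf1 : f 1 = 1 := by
    rw [hf, hg2]; simp
  have hfn1 : ‖f‖ = 1 := by
    apply le_antisymm
    · exact f.opNorm_le_bound zero_le_one fun x => by rw [one_mul]; exact hfn x
    · have := f.le_opNorm 1
      rw [hf1, norm_one, CStarRing.norm_one, mul_one] at this
      exact this
  refine ⟨f, fun a b => map_add f a b, fun c a => by rw [map_smul, smul_eq_mul],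
    fun a => pos_of_norm f hfn1 hf1 a, hf1, hfn, fun a ha => ?_⟩
  rw [hf]
  have : p.mkQ a = 0 := (Submodule.Quotient.mk_eq_zero p).2 ha
  rw [this, map_zero]

lemma St_compact (I : Set C) : IsCompact (St I) := by
  have h1 : IsCompact (Set.pi Set.univ (fun a : C => Metric.closedBall (0 : ℂ) ‖a‖)) :=
    isCompact_univ_pi fun a => isCompact_closedBall _ _
  refine h1.of_isClosed_subset ?_ ?_
  · have h : St I = {f : C → ℂ | ∀ a b, f (a + b) = f a + f b} ∩
        {f : C → ℂ | ∀ (c : ℂ) a, f (c • a) = c * f a} ∩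
        {f : C → ℂ | ∀ a, 0 ≤ f (star a * a)} ∩
        {f : C → ℂ | f 1 = 1} ∩ {f : C → ℂ | ∀ a, ‖f a‖ ≤ ‖a‖} ∩
        {f : C → ℂ | ∀ a ∈ I, f a = 0} := by
      ext f
      constructor
      · rintro ⟨h1, h2, h3, h4, h5, h6⟩
        exact ⟨⟨⟨⟨⟨h1, h2⟩, h3⟩, h4⟩, h5⟩, h6⟩
      · rintro ⟨⟨⟨⟨⟨h1, h2⟩, h3⟩, h4⟩, h5⟩, h6⟩
        exact ⟨h1, h2, h3, h4, h5, h6⟩
    rw [h]
    have hev : ∀ a : C, Continuous (fun f : C → ℂ => f a) := fun a => continuous_apply a
    refine IsClosed.inter (IsClosed.inter (IsClosed.inter (IsClosed.inter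
      (IsClosed.inter ?_ ?_) ?_) ?_) ?_) ?_
    · simp only [Set.ofPred_forall]
      exact isClosed_iInter fun a => isClosed_iInter fun b =>
        isClosed_eq (hev _) ((hev a).add (hev b))
    · simp only [Set.ofPred_forall]
      exact isClosed_iInter fun c => isClosed_iInter fun a =>
        isClosed_eq (hev _) (continuous_const.mul (hev a))
    · simp only [Set.ofPred_forall]
      exact isClosed_iInter fun a => isClosed_Ici.preimage (hev (star a * a))
    · exact isClosed_eq (hev _) continuous_const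
    · simp only [Set.ofPred_forall]
      exact isClosed_iInter fun a => isClosed_le (hev a).norm continuous_const
    · simp only [Set.ofPred_forall]
      exact isClosed_iInter fun a => isClosed_iInter fun _ => isClosed_eq (hev a) continuous_const
  · intro f hf a _
    rw [mem_closedBall_zero_iff]
    exact hf.2.2.2.2.1 a

end Pool.Agent.TH251.TI
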