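import Mathlib
import Pool.Agent.TH251.TI.Irr

/-!
# Irreducible representations with maximal kernel: the GNS representation
-/

set_option autoImplicit false

open scoped ComplexOrder InnerProductSpace
open UniformSpace Completion

namespace Pool.Agent.TH251.TI

open Pool.Agent.W658.TypeI Pool.Agent.W658.Irrep

variable {C : Type} [CStarAlgebra C]

theorem exists_rep [Nontrivial C] : ∃ (K : Type) (_ : NormedAddCommGroup K)
    (_ : InnerProductSpace ℂ K) (_ : CompleteSpace K) (ρ : C →⋆ₙₐ[ℂ] (K →L[ℂ] K)),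
    IsIrreducible ρ ∧ ρ 1 = 1 ∧ (∃ ξ : K, ‖ξ‖ = 1) ∧
    ∀ J : Set C, IsId J → (∀ x, ρ x = 0 → x ∈ J) → (1 : C) ∉ J → ∀ x ∈ J, ρ x = 0 := by
  obtain ⟨I, hI, h1I, hmax⟩ := exists_max (C := C)
  obtain ⟨φ, hφ⟩ := (St_compact I).extremePoints_nonempty (St_nonempty hI h1I)
  obtain ⟨⟨hadd, hsm, hpos, hone, hn, hz⟩, hext⟩ := mem_extremePoints.mp hφ
  let _ := CStarAlgebra.spectralOrder C
  have _ := CStarAlgebra.spectralOrderedRing C
  let f : C →ₚ[ℂ] ℂ := PositiveLinearMap.mk₀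
    ({ toFun := φ, map_add' := hadd, map_smul' := fun c a => hsm c a } : C →ₗ[ℂ] ℂ) (by
      intro x hx
      obtain ⟨y, rfl⟩ := CStarAlgebra.nonneg_iff_eq_star_mul_self.1 hx
      exact hpos y)
  have hf : ∀ x, f x = φ x := fun x => rfl
  let ρ : C →⋆ₙₐ[ℂ] (f.GNS →L[ℂ] f.GNS) := f.gnsNonUnitalStarAlgHom
  let ξ : f.GNS := (f.toPreGNS (1 : C) : f.GNS)
  have hρ : ∀ a b : C, ρ a (f.toPreGNS b : f.GNS) = (f.toPreGNS (a * b) : f.GNS) := by
    intro a b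
    show f.gnsNonUnitalStarAlgHom a (f.toPreGNS b : f.GNS) = _
    rw [PositiveLinearMap.gnsNonUnitalStarAlgHom_apply_coe]
    rfl
  have hin : ∀ a b : C, ⟪(f.toPreGNS a : f.GNS), (f.toPreGNS b : f.GNS)⟫_ℂ = φ (star a * b) := by
    intro a b
    rw [UniformSpace.Completion.inner_coe, PositiveLinearMap.preGNS_inner_def]
    rfl
  have hρξ : ∀ a, ρ a ξ = (f.toPreGNS a : f.GNS) := by
    intro a
    rw [hρ, mul_one]
  have hdense : ∀ x y : f.GNS, (∀ a : C, ⟪x, ρ a ξ⟫_ℂ = ⟪y, ρ a ξ⟫_ℂ) → x = y := by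
    intro x y h
    have h2 : ∀ z : f.GNS, ⟪x, z⟫_ℂ = ⟪y, z⟫_ℂ := by
      intro z
      induction z using UniformSpace.Completion.induction_on with
      | hp => exact isClosed_eq (by fun_prop) (by fun_prop)
      | ih z =>
        have := h (f.ofPreGNS z)
        rw [hρξ] at this
        exact this
    exact ext_inner_right ℂ h2
  have hρ1 : ρ 1 = 1 := by
    ext z
    induction z using UniformSpace.Completion.induction_on with
    | hp => exact isClosed_eq (by fun_prop) (by fun_prop)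
    | ih z =>
      have := hρ 1 (f.ofPreGNS z)
      rw [one_mul] at this
      exact this
  have hξ : ‖ξ‖ = 1 := by
    have h2 := hin 1 1
    rw [star_one, one_mul, hone] at h2
    have h3 : ⟪ξ, ξ⟫_ℂ = 1 := h2
    rw [inner_self_eq_norm_sq_to_K] at h3
    have h4 : ((‖ξ‖ ^ 2 : ℝ) : ℂ) = ((1 : ℝ) : ℂ) := by
      push_cast
      exact h3
    have h5 : ‖ξ‖ ^ 2 = 1 := Complex.ofReal_injective h4
    nlinarith [norm_nonneg ξ]
  have hker : ∀ x ∈ I, ρ x = 0 := by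
    intro x hx
    ext z
    induction z using UniformSpace.Completion.induction_on with
    | hp => exact isClosed_eq (by fun_prop) (by fun_prop)
    | ih z =>
      have h2 := hρ x (f.ofPreGNS z)
      have h3 : ρ x (z : f.GNS) = (f.toPreGNS (x * f.ofPreGNS z) : f.GNS) := h2
      rw [h3]
      rw [zero_apply, ← inner_self_eq_zero (𝕜 := ℂ), hin]
      apply hz
      rw [star_mul, mul_assoc]
      apply hI.left
      apply hI.left
      exact hI.right x hx _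
  refine ⟨f.GNS, inferInstance, inferInstance, inferInstance, ρ, ⟨?_, ?_⟩, hρ1, ⟨ξ, hξ⟩, ?_⟩
  · intro h
    rw [h] at hρ1
    have := congrArg (fun T => T ξ) hρ1
    simp at this
    rw [← this, norm_zero] at hξ
    norm_num at hξ
  · intro U hU hinv
    have : CompleteSpace U := hU.completeSpace_coe
    let P : f.GNS →L[ℂ] f.GNS := U.starProjection
    have hPm : ∀ x, P x ∈ U := fun x => U.starProjection_apply_mem x
    have hPi : ∀ x ∈ U, P x = x := fun x hx => U.starProjection_eq_self_iff.2 hx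
    have horth : ∀ x, ∀ y ∈ U, ⟪x - P x, y⟫_ℂ = 0 := by
      intro x y hy
      exact U.starProjection_inner_eq_zero x y hy
    -- P commutes with the representation
    have hinv2 : ∀ a, ∀ x, (∀ y ∈ U, ⟪x, y⟫_ℂ = 0) → ∀ y ∈ U, ⟪ρ a x, y⟫_ℂ = 0 := by
      intro a x hx y hy
      have h2 : ⟪ρ a x, y⟫_ℂ = ⟪x, ρ (star a) y⟫_ℂ := by
        rw [map_star, ContinuousLinearMap.star_eq_adjoint, ContinuousLinearMap.adjoint_inner_right]
      rw [h2]
      exact hx _ (hinv _ _ hy)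
    have hsplit : ∀ a, ⟪ξ, ρ a ξ⟫_ℂ = ⟪P ξ, ρ a (P ξ)⟫_ℂ + ⟪ξ - P ξ, ρ a (ξ - P ξ)⟫_ℂ := by
      intro a
      have e1 : ⟪ξ - P ξ, ρ a (P ξ)⟫_ℂ = 0 := horth _ _ (hinv a _ (hPm ξ))
      have e2 : ⟪P ξ, ρ a (ξ - P ξ)⟫_ℂ = 0 := by
        rw [← inner_conj_symm, hinv2 a _ (horth ξ) _ (hPm ξ), map_zero]
      have e3 : ξ = P ξ + (ξ - P ξ) := by abel
      calc ⟪ξ, ρ a ξ⟫_ℂ = ⟪P ξ + (ξ - P ξ), ρ a (P ξ + (ξ - P ξ))⟫_ℂ := by rw [← e3]
        _ = _ := by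
          rw [map_add, inner_add_left, inner_add_right, inner_add_right, e1, e2]
          ring
    -- vector states
    have hvec : ∀ v : f.GNS, v ≠ 0 → (fun a => ((‖v‖ ^ 2 : ℝ) : ℂ)⁻¹ * ⟪v, ρ a v⟫_ℂ) ∈ St I := by
      intro v hv
      have hv0 : 0 < ‖v‖ ^ 2 := by positivity
      have hvC : ((‖v‖ ^ 2 : ℝ) : ℂ) ≠ 0 := by exact_mod_cast hv0.ne'
      refine ⟨?_, ?_, ?_, ?_, ?_, ?_⟩
      · intro a b
        simp only [map_add, add_apply, inner_add_right, mul_add]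
      · intro c a
        simp only [map_smul, smul_apply, inner_smul_right]
        ring
      · intro a
        have e : ⟪v, ρ (star a * a) v⟫_ℂ = ((‖ρ a v‖ ^ 2 : ℝ) : ℂ) := by
          rw [map_mul, map_star, ContinuousLinearMap.star_eq_adjoint,
            mul_apply_eq_comp, ContinuousLinearMap.adjoint_inner_right,
            inner_self_eq_norm_sq_to_K]
          norm_cast
        show 0 ≤ ((‖v‖ ^ 2 : ℝ) : ℂ)⁻¹ * ⟪v, ρ (star a * a) v⟫_ℂ
        rw [e, ← Complex.ofReal_inv, ← Complex.ofReal_mul]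
        exact Complex.zero_le_real.2 (by positivity)
      · show ((‖v‖ ^ 2 : ℝ) : ℂ)⁻¹ * ⟪v, ρ 1 v⟫_ℂ = 1
        rw [hρ1, one_apply_eq_self, inner_self_eq_norm_sq_to_K]
        have : ((‖v‖ : ℂ)) ^ 2 = ((‖v‖ ^ 2 : ℝ) : ℂ) := by push_cast; rfl
        erw [this]
        exact inv_mul_cancel₀ hvC
      · intro a
        show ‖((‖v‖ ^ 2 : ℝ) : ℂ)⁻¹ * ⟪v, ρ a v⟫_ℂ‖ ≤ ‖a‖
        rw [norm_mul, norm_inv, Complex.norm_real, Real.norm_of_nonneg hv0.le]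
        have e1 : ‖⟪v, ρ a v⟫_ℂ‖ ≤ ‖v‖ * ‖ρ a v‖ := norm_inner_le_norm _ _
        have e2 : ‖ρ a v‖ ≤ ‖a‖ * ‖v‖ := by
          refine ((ρ a).le_opNorm v).trans ?_
          gcongr
          exact NonUnitalStarAlgHom.norm_apply_le ρ a
        have e3 : ‖⟪v, ρ a v⟫_ℂ‖ ≤ ‖v‖ ^ 2 * ‖a‖ := by
          refine e1.trans ?_
          calc ‖v‖ * ‖ρ a v‖ ≤ ‖v‖ * (‖a‖ * ‖v‖) := by gcongr
            _ = _ := by ring
        calc (‖v‖ ^ 2)⁻¹ * ‖⟪v, ρ a v⟫_ℂ‖ ≤ (‖v‖ ^ 2)⁻¹ * (‖v‖ ^ 2 * ‖a‖) := by gcongr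
          _ = _ := by field_simp
      · intro a ha
        show ((‖v‖ ^ 2 : ℝ) : ℂ)⁻¹ * ⟪v, ρ a v⟫_ℂ = 0
        rw [hker a ha]
        simp
    by_cases hA : P ξ = 0
    · -- ξ is orthogonal to U, hence U = 0
      left
      rw [eq_bot_iff]
      intro u hu
      have h2 : u = 0 := by
        apply hdense
        intro a
        rw [inner_zero_left, ← inner_conj_symm, hinv2 a ξ (by
          intro y hy
          have := horth ξ y hy
          rwa [hA, sub_zero] at this) u hu, map_zero]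
      rw [h2]
      exact zero_mem _
    by_cases hB : ξ - P ξ = 0
    · right
      have hξU : ξ ∈ U := by
        have : ξ = P ξ := sub_eq_zero.1 hB
        rw [this]
        exact hPm ξ
      rw [eq_top_iff]
      intro z _
      have h2 : z - P z = 0 := by
        apply hdense
        intro a
        rw [inner_zero_left]
        exact horth z _ (hinv a _ hξU)
      rw [sub_eq_zero.1 h2]
      exact hPm z
    · exfalso
      have hsum : ‖P ξ‖ ^ 2 + ‖ξ - P ξ‖ ^ 2 = 1 := by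
        have h2 := hsplit 1
        rw [hρ1] at h2
        simp only [one_apply_eq_self] at h2
        rw [inner_self_eq_norm_sq_to_K, inner_self_eq_norm_sq_to_K, inner_self_eq_norm_sq_to_K,
          hξ] at h2
        have h3 : (1 : ℝ) ^ 2 = ‖P ξ‖ ^ 2 + ‖ξ - P ξ‖ ^ 2 := by exact_mod_cast h2
        rw [← h3]; norm_num
      have hp0 : 0 < ‖P ξ‖ ^ 2 := by positivity
      have hq0 : 0 < ‖ξ - P ξ‖ ^ 2 := by
        have : 0 < ‖ξ - P ξ‖ := norm_pos_iff.2 hB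
        positivity
      have hcomb : (‖P ξ‖ ^ 2) • (fun a => ((‖P ξ‖ ^ 2 : ℝ) : ℂ)⁻¹ * ⟪P ξ, ρ a (P ξ)⟫_ℂ) +
          (‖ξ - P ξ‖ ^ 2) • (fun a => ((‖ξ - P ξ‖ ^ 2 : ℝ) : ℂ)⁻¹ *
            ⟪ξ - P ξ, ρ a (ξ - P ξ)⟫_ℂ) = φ := by
        funext a
        have e1 : φ a = ⟪ξ, ρ a ξ⟫_ℂ := by
          rw [hρξ, hin, star_one, one_mul]
        rw [e1, hsplit a]
        show (‖P ξ‖ ^ 2 : ℝ) • (((‖P ξ‖ ^ 2 : ℝ) : ℂ)⁻¹ * ⟪P ξ, ρ a (P ξ)⟫_ℂ) +
          (‖ξ - P ξ‖ ^ 2 : ℝ) • (((‖ξ - P ξ‖ ^ 2 : ℝ) : ℂ)⁻¹ *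
            ⟪ξ - P ξ, ρ a (ξ - P ξ)⟫_ℂ) = _
        rw [Complex.real_smul, Complex.real_smul]
        have c1 : ((‖P ξ‖ ^ 2 : ℝ) : ℂ) ≠ 0 := by exact_mod_cast hp0.ne'
        have c2 : ((‖ξ - P ξ‖ ^ 2 : ℝ) : ℂ) ≠ 0 := by exact_mod_cast hq0.ne'
        rw [mul_inv_cancel_left₀ c1, mul_inv_cancel_left₀ c2]
      have hx := hext _ (hvec (P ξ) hA) _ (hvec (ξ - P ξ) hB)
        ⟨‖P ξ‖ ^ 2, ‖ξ - P ξ‖ ^ 2, hp0, hq0, hsum, hcomb⟩
      have hfin : P ξ = ((‖P ξ‖ ^ 2 : ℝ) : ℂ) • ξ := by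
        apply hdense
        intro a
        have e1 : ⟪P ξ, ρ a ξ⟫_ℂ = ⟪P ξ, ρ a (P ξ)⟫_ℂ := by
          have e2 : ⟪P ξ, ρ a (ξ - P ξ)⟫_ℂ = 0 := by
            rw [← inner_conj_symm, hinv2 a _ (horth ξ) _ (hPm ξ), map_zero]
          rw [map_sub, inner_sub_right] at e2
          exact sub_eq_zero.1 e2
        rw [e1, inner_smul_left, Complex.conj_ofReal]
        have e3 := congrFun hx.1 a
        have e4 : φ a = ⟪ξ, ρ a ξ⟫_ℂ := by
          rw [hρξ, hin, star_one, one_mul]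
        rw [← e4, ← e3]
        have c1 : ((‖P ξ‖ ^ 2 : ℝ) : ℂ) ≠ 0 := by exact_mod_cast hp0.ne'
        rw [mul_inv_cancel_left₀ c1]
      have h5 : P ξ = ξ := by
        have h6 : ((‖P ξ‖ ^ 2 : ℝ) : ℂ)⁻¹ • P ξ = ξ := by
          have c1 : ((‖P ξ‖ ^ 2 : ℝ) : ℂ) ≠ 0 := by exact_mod_cast hp0.ne'
          calc ((‖P ξ‖ ^ 2 : ℝ) : ℂ)⁻¹ • P ξ
              = ((‖P ξ‖ ^ 2 : ℝ) : ℂ)⁻¹ • (((‖P ξ‖ ^ 2 : ℝ) : ℂ) • ξ) :=
                congrArg (fun z => ((‖P ξ‖ ^ 2 : ℝ) : ℂ)⁻¹ • z) hfin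
            _ = ξ := by rw [smul_smul, inv_mul_cancel₀ c1, one_smul]
        have h7 : ξ ∈ U := by
          rw [← h6]
          exact U.smul_mem _ (hPm ξ)
        exact hPi ξ h7
      exact hB (by rw [h5, sub_self])
  · intro J hJ hJ2 h1J x hx
    have h2 : I ⊆ J := fun y hy => hJ2 y (hker y hy)
    have h3 := hmax J hJ h2 h1J
    exact hker x (h3 ▸ hx)

end Pool.Agent.TH251.TI
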