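import Mathlib
import Pool.Agent.W658.Cone
import Pool.Agent.TH251.TI.Gns

/-!
# The unitised cone over the Cuntz algebra is stably finite and not locally of type I
-/

set_option autoImplicit false

open scoped ComplexOrder InnerProductSpace
open Filter Topology

namespace Pool.Agent.TH251.TI

open Pool.Agent.W658.TypeI Pool.Agent.W658.Irrep Pool.Agent.W658.Cone

/-! ### traces -/

lemma trace_bound {K : Type} [NormedAddCommGroup K] [InnerProductSpace ℂ K]
    [FiniteDimensional ℂ K] (T : K →L[ℂ] K) :
    ‖LinearMap.trace ℂ K (T : K →ₗ[ℂ] K)‖ ≤ Module.finrank ℂ K * ‖T‖ := by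
  rw [LinearMap.trace_eq_sum_inner _ (stdOrthonormalBasis ℂ K)]
  refine (norm_sum_le _ _).trans ?_
  have h : ∀ i ∈ (Finset.univ : Finset (Fin (Module.finrank ℂ K))),
      ‖⟪stdOrthonormalBasis ℂ K i, (T : K →ₗ[ℂ] K) (stdOrthonormalBasis ℂ K i)⟫_ℂ‖ ≤ ‖T‖ := by
    intro i _
    refine (norm_inner_le_norm _ _).trans ?_
    rw [(stdOrthonormalBasis ℂ K).orthonormal.1 i, one_mul]
    refine (T.le_opNorm _).trans ?_
    rw [(stdOrthonormalBasis ℂ K).orthonormal.1 i, mul_one]
  refine (Finset.sum_le_card_nsmul _ _ _ h).trans ?_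
  rw [Finset.card_univ, Fintype.card_fin, nsmul_eq_mul]

lemma trace_contra {K : Type} [NormedAddCommGroup K] [InnerProductSpace ℂ K]
    [FiniteDimensional ℂ K] [Nontrivial K] (X Y Z W : K →L[ℂ] K)
    (h : ‖X * Y - Y * X + (Z * W - W * Z) - 1‖ < 1) : False := by
  have h1 := trace_bound (X * Y - Y * X + (Z * W - W * Z) - 1)
  have h2 : LinearMap.trace ℂ K ((X * Y - Y * X + (Z * W - W * Z) - 1 : K →L[ℂ] K) : K →ₗ[ℂ] K)
      = - (Module.finrank ℂ K : ℂ) := by
    have e : ((X * Y - Y * X + (Z * W - W * Z) - 1 : K →L[ℂ] K) : K →ₗ[ℂ] K) =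
      (X : K →ₗ[ℂ] K) * Y - (Y : K →ₗ[ℂ] K) * X + ((Z : K →ₗ[ℂ] K) * W - (W : K →ₗ[ℂ] K) * Z)
        - 1 := rfl
    rw [e, map_sub, map_add, map_sub, map_sub, LinearMap.trace_mul_comm ℂ (X : K →ₗ[ℂ] K),
      LinearMap.trace_mul_comm ℂ (Z : K →ₗ[ℂ] K), sub_self, sub_self, LinearMap.trace_one]
    ring
  rw [h2, norm_neg, Complex.norm_natCast] at h1
  have h3 : 0 < Module.finrank ℂ K := Module.finrank_pos
  have h4 : (0 : ℝ) < Module.finrank ℂ K := by exact_mod_cast h3
  nlinarith

/-! ### the main step -/

lemma one_ne_zero_BH : (1 : BH) ≠ 0 := by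
  intro h
  have h2 := congrArg (fun T : BH => T xi) h
  simp only [one_apply_eq_self, zero_apply] at h2
  have h3 := norm_xi
  rw [h2, norm_zero] at h3
  norm_num at h3

section step

variable {B : Type} [NonUnitalRing B] [StarRing B] [Module ℂ B]

/-- The closure of the image of a representation which almost contains the unit. -/
noncomputable def imC (π : B →⋆ₙₐ[ℂ] BH) (y : B) (hy : ‖1 - π y‖ < 1) : StarSubalgebra ℂ BH where
  carrier := closure (Set.range π)
  mul_mem' := by
    intro a b ha hb
    refine map_mem_closure₂ continuous_mul ha hb ?_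
    rintro _ ⟨x, rfl⟩ _ ⟨z, rfl⟩
    exact ⟨x * z, map_mul _ _ _⟩
  add_mem' := by
    intro a b ha hb
    refine map_mem_closure₂ continuous_add ha hb ?_
    rintro _ ⟨x, rfl⟩ _ ⟨z, rfl⟩
    exact ⟨x + z, map_add _ _ _⟩
  star_mem' := by
    intro a ha
    refine map_mem_closure continuous_star ha ?_
    rintro _ ⟨x, rfl⟩
    exact ⟨star x, map_star _ _⟩
  algebraMap_mem' := by
    have h1 : ∀ n : ℕ, ∃ x : B, π x = 1 - (1 - π y) ^ n := by
      intro n
      induction n with
      | zero => exact ⟨0, by rw [map_zero, pow_zero, sub_self]⟩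
      | succ n ih =>
        obtain ⟨x, hx⟩ := ih
        refine ⟨y + x - y * x, ?_⟩
        rw [map_sub, map_add, map_mul, hx, pow_succ']
        noncomm_ring
    have h2 : (1 : BH) ∈ closure (Set.range π) := by
      have h3 : Tendsto (fun n : ℕ => (1 : BH) - (1 - π y) ^ n) atTop (𝓝 (1 - 0)) :=
        tendsto_const_nhds.sub (tendsto_pow_atTop_nhds_zero_of_norm_lt_one hy)
      rw [sub_zero] at h3
      refine mem_closure_of_tendsto h3 (Eventually.of_forall fun n => ?_)
      obtain ⟨x, hx⟩ := h1 n
      exact ⟨x, hx⟩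
    intro r
    rw [Algebra.algebraMap_eq_smul_one]
    refine map_mem_closure (f := fun z : BH => r • z) (by fun_prop) h2 ?_
    rintro _ ⟨x, rfl⟩
    exact ⟨r • x, map_smul _ _ _⟩

lemma isClosed_imC (π : B →⋆ₙₐ[ℂ] BH) (y : B) (hy : ‖1 - π y‖ < 1) :
    IsClosed (imC π y hy : Set BH) := isClosed_closure

lemma no_typeI (π : B →⋆ₙₐ[ℂ] BH) (hB : IsTypeI B) (y z : B)
    (h1 : ‖star (π y) * π y - 1‖ < 1 / 8) (h2 : ‖star (π z) * π z - 1‖ < 1 / 8)
    (h3 : ‖π y * star (π y) + π z * star (π z) - 1‖ < 1 / 2) : False := by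
  have hy : ‖1 - π (star y * y)‖ < 1 := by
    rw [map_mul, map_star, norm_sub_rev]
    linarith
  let D : StarSubalgebra ℂ BH := imC π (star y * y) hy
  let _ : CStarAlgebra D := StarSubalgebra.cstarAlgebra D (h_closed := isClosed_imC _ _ _)
  have hnt : Nontrivial D := ⟨1, 0, fun h => one_ne_zero_BH (congrArg Subtype.val h)⟩
  have hmem : ∀ b : B, π b ∈ D := fun b => subset_closure ⟨b, rfl⟩
  let πD : B →⋆ₙₐ[ℂ] D :=
    { toFun := fun b => ⟨π b, hmem b⟩
      map_smul' := fun c b => Subtype.ext (map_smul π c b)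
      map_zero' := Subtype.ext (map_zero π)
      map_add' := fun a b => Subtype.ext (map_add π a b)
      map_mul' := fun a b => Subtype.ext (map_mul π a b)
      map_star' := fun a => Subtype.ext (map_star π a) }
  obtain ⟨K, _, _, _, ρ, hirr, hρ1, ⟨ξ, hξ⟩, hmax⟩ := exists_rep (C := D)
  have hle : ∀ x : D, ‖ρ x‖ ≤ ‖x‖ := fun x => NonUnitalStarAlgHom.norm_apply_le ρ x
  have hcont : Continuous ρ := by
    have : LipschitzWith 1 ρ := LipschitzWith.of_dist_le_mul fun x y => by
      rw [dist_eq_norm, dist_eq_norm, ← map_sub, NNReal.coe_one, one_mul]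
      exact hle _
    exact this.continuous
  have hdense : DenseRange πD := by
    intro x
    rw [Metric.mem_closure_range_iff]
    intro ε hε
    obtain ⟨_, ⟨b, rfl⟩, hb⟩ := Metric.mem_closure_iff.1 x.2 ε hε
    exact ⟨b, hb⟩
  -- the representation of `B`
  have hirr2 : IsIrreducible (ρ.comp πD) := by
    refine ⟨?_, ?_⟩
    · intro h
      apply hirr.1
      have h4 : (ρ : D → (K →L[ℂ] K)) = fun _ => 0 := by
        refine DenseRange.equalizer hdense hcont continuous_const ?_
        funext b
        exact DFunLike.congr_fun h b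
      apply DFunLike.ext
      intro x
      exact congrFun h4 x
    · intro U hU hinv
      refine hirr.2 U hU ?_
      intro b x hx
      have h5 : IsClosed {c : D | ρ c x ∈ U} := by
        refine hU.preimage ?_
        exact (ContinuousLinearMap.apply ℂ K x).continuous.comp hcont
      have h6 : Set.range πD ⊆ {c : D | ρ c x ∈ U} := by
        rintro _ ⟨b, rfl⟩
        exact hinv b x hx
      exact h5.closure_subset_iff.2 h6 (hdense b)
  have hcomp := hB K (ρ.comp πD) hirr2
  -- the identity is compact
  have hone : IsCompactOperator (1 : K →L[ℂ] K) := by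
    by_contra hc
    have hN : IsId {x : D | IsCompactOperator (ρ x)} := by
      refine ⟨?_, ?_, ?_, ?_⟩
      · show IsCompactOperator (ρ 0)
        rw [map_zero]
        exact isCompactOperator_zero
      · intro a ha b hb
        show IsCompactOperator (ρ (a + b))
        rw [map_add]
        exact IsCompactOperator.add ha hb
      · intro a b hb
        show IsCompactOperator (ρ (a * b))
        rw [map_mul]
        exact IsCompactOperator.clm_comp hb (ρ a)
      · intro a ha b
        show IsCompactOperator (ρ (a * b))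
        rw [map_mul]
        exact IsCompactOperator.comp_clm ha (ρ b)
    have h7 := hmax _ hN (fun x hx => by
      show IsCompactOperator (ρ x)
      rw [hx]
      exact isCompactOperator_zero) (by
      show ¬ IsCompactOperator (ρ 1)
      rw [hρ1]
      exact hc)
    let T : K →L[ℂ] K := (innerSL ℂ ξ).smulRight ξ
    have hT : IsCompactOperator T := by
      have e : IsCompactOperator (innerSL ℂ ξ : K →L[ℂ] ℂ) :=
        isCompactOperator_of_locallyCompactSpace_dom _
      exact IsCompactOperator.clm_comp e (ContinuousLinearMap.toSpanSingleton ℂ ξ)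
    obtain ⟨b, hb⟩ := hcomp T hT
    have h8 : ρ (πD b) = 0 := h7 (πD b) (by
      show IsCompactOperator (ρ (πD b))
      have : ρ (πD b) = T := hb
      rw [this]
      exact hT)
    have h9 : T ξ = 0 := by
      have : T = 0 := by rw [← hb]; exact h8
      rw [this, zero_apply]
    have h10 : T ξ = ⟪ξ, ξ⟫_ℂ • ξ := rfl
    rw [h10, inner_self_eq_norm_sq_to_K, hξ] at h9
    simp only [RCLike.ofReal_one, one_pow, one_smul] at h9
    rw [h9, norm_zero] at hξ
    norm_num at hξ
  have hloc : LocallyCompactSpace K := by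
    have : IsCompactOperator (id : K → K) := hone
    exact isCompactOperator_id_iff_locallyCompactSpace.1 this
  have hfd : FiniteDimensional ℂ K := FiniteDimensional.of_locallyCompactSpace ℂ
  have hK : Nontrivial K := ⟨ξ, 0, fun h => by rw [h, norm_zero] at hξ; norm_num at hξ⟩
  refine trace_contra (star (ρ (πD y))) (ρ (πD y)) (star (ρ (πD z))) (ρ (πD z)) ?_
  have e1 : star (ρ (πD y)) * ρ (πD y) - ρ (πD y) * star (ρ (πD y)) +
      (star (ρ (πD z)) * ρ (πD z) - ρ (πD z) * star (ρ (πD z))) - 1 =
      ρ (star (πD y) * πD y - πD y * star (πD y) +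
        (star (πD z) * πD z - πD z * star (πD z)) - 1) := by
    simp only [map_sub, map_add, map_mul, map_star, hρ1]
  rw [e1]
  refine (hle _).trans_lt ?_
  show ‖star (π y) * π y - π y * star (π y) + (star (π z) * π z - π z * star (π z)) - 1‖ < 1
  have e2 : star (π y) * π y - π y * star (π y) + (star (π z) * π z - π z * star (π z)) - 1 =
      (star (π y) * π y - 1) + (star (π z) * π z - 1) -
        (π y * star (π y) + π z * star (π z) - 1) := by abel
  rw [e2]
  calc ‖(star (π y) * π y - 1) + (star (π z) * π z - 1) -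
        (π y * star (π y) + π z * star (π z) - 1)‖
      ≤ ‖star (π y) * π y - 1‖ + ‖star (π z) * π z - 1‖ +
        ‖π y * star (π y) + π z * star (π z) - 1‖ :=
        (norm_sub_le _ _).trans (add_le_add (norm_add_le _ _) le_rfl)
    _ < 1 := by linarith

end step

/-! ### not locally of type I -/

lemma norm_ev_le (t : unitInterval) (f : CA) : ‖ev t f‖ ≤ ‖f‖ :=
  ContinuousMap.norm_coe_le_norm (f : CB) t

/-- the identity function of the unit interval -/
noncomputable def idt : C(unitInterval, ℝ) := ⟨fun t => (t : ℝ), by fun_prop⟩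

/-- the function `t ↦ t s_b` -/
noncomputable def xs (b : Bool) : CA :=
  ⟨el idt (s b), el_mem (StarSubalgebra.le_topologicalClosure _
    (StarAlgebra.subset_adjoin _ _ ⟨b, rfl⟩)) rfl⟩

lemma ev_xs (b : Bool) : ev 1 (xs b) = s b := by
  show (((1 : unitInterval) : ℝ) : ℂ) • s b = s b
  simp

lemma norm_s_le (b : Bool) : ‖s b‖ ≤ 1 := by
  have h : ‖s b‖ ^ 2 ≤ 1 := by
    rw [sq, ← CStarRing.norm_star_mul_self, star_s_mul_s_self]
    exact ContinuousLinearMap.norm_id_le
  nlinarith [norm_nonneg (s b)]

lemma est1 (b : Bool) (w : BH) (h : ‖s b - w‖ < 1 / 20) :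
    ‖star w * w - star (s b) * s b‖ ≤ 41 / 400 ∧ ‖w * star w - s b * star (s b)‖ ≤ 41 / 400 := by
  have h1 := norm_s_le b
  have h2 : ‖w - s b‖ < 1 / 20 := by rwa [norm_sub_rev]
  have h3 : ‖w‖ ≤ 1 + 1 / 20 := by
    calc ‖w‖ = ‖(w - s b) + s b‖ := by rw [sub_add_cancel]
      _ ≤ ‖w - s b‖ + ‖s b‖ := norm_add_le _ _
      _ ≤ _ := by linarith
  constructor
  · have e : star w * w - star (s b) * s b = star w * (w - s b) + star (w - s b) * s b := by
      rw [star_sub]; noncomm_ring
    rw [e]
    refine (norm_add_le _ _).trans ?_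
    have a1 := norm_mul_le (star w) (w - s b)
    have a2 := norm_mul_le (star (w - s b)) (s b)
    rw [norm_star] at a1 a2
    nlinarith [norm_nonneg w, norm_nonneg (w - s b), norm_nonneg (s b)]
  · have e : w * star w - s b * star (s b) = w * star (w - s b) + (w - s b) * star (s b) := by
      rw [star_sub]; noncomm_ring
    rw [e]
    refine (norm_add_le _ _).trans ?_
    have a1 := norm_mul_le w (star (w - s b))
    have a2 := norm_mul_le (w - s b) (star (s b))
    rw [norm_star] at a1 a2
    nlinarith [norm_nonneg w, norm_nonneg (w - s b), norm_nonneg (s b)]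

theorem not_locallyTypeI : ¬ LocallyTypeI CA := by
  classical
  intro h
  obtain ⟨B, hBc, hB, hF⟩ := h {xs false, xs true} (1 / 20) (by norm_num)
  obtain ⟨y, hy, hy2⟩ := hF (xs false) (by simp)
  obtain ⟨z, hz, hz2⟩ := hF (xs true) (by simp)
  let π : B →⋆ₙₐ[ℂ] BH := (ev 1).comp (NonUnitalStarSubalgebraClass.subtype B)
  have h1 : ‖s false - ev 1 y‖ < 1 / 20 := by
    have := (norm_ev_le 1 (xs false - y)).trans_lt hy2
    rwa [map_sub, ev_xs] at this
  have h2 : ‖s true - ev 1 z‖ < 1 / 20 := by
    have := (norm_ev_le 1 (xs true - z)).trans_lt hz2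
    rwa [map_sub, ev_xs] at this
  obtain ⟨a1, a2⟩ := est1 false _ h1
  obtain ⟨b1, b2⟩ := est1 true _ h2
  rw [star_s_mul_s_self] at a1 b1
  refine no_typeI π hB ⟨y, hy⟩ ⟨z, hz⟩ ?_ ?_ ?_
  · show ‖star (ev 1 y) * ev 1 y - 1‖ < 1 / 8
    linarith
  · show ‖star (ev 1 z) * ev 1 z - 1‖ < 1 / 8
    linarith
  · show ‖ev 1 y * star (ev 1 y) + ev 1 z * star (ev 1 z) - 1‖ < 1 / 2
    have e : ev 1 y * star (ev 1 y) + ev 1 z * star (ev 1 z) - 1 =
        (ev 1 y * star (ev 1 y) - s false * star (s false)) +
        (ev 1 z * star (ev 1 z) - s true * star (s true)) := by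
      rw [← s_sum]; abel
    rw [e]
    refine (norm_add_le _ _).trans_lt ?_
    linarith

/-! ### stably finite -/

section sf

attribute [local instance] Matrix.linftyOpNormedRing

theorem stablyFinite : IsStablyFinite CA := by
  intro n v hv
  -- evaluate
  let w : unitInterval → Matrix (Fin n) (Fin n) BH := fun t => v.map (fun f => ev t f)
  have hw : Continuous w := by
    refine continuous_matrix fun i j => ?_
    exact ((v i j : CA) : CB).continuous
  have hw1 : ∀ t, star (w t) * w t = 1 := by
    intro t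
    have := congrArg (fun M : Matrix (Fin n) (Fin n) CA => M.map (fun f => ev t f)) hv
    refine Matrix.ext fun i j => ?_
    have h2 := congrFun (congrFun this i) j
    simp only [Matrix.map_apply, Matrix.mul_apply, Matrix.star_apply, map_sum, map_mul,
      map_star] at h2
    rw [Matrix.mul_apply]
    simp only [Matrix.star_apply]
    refine h2.trans ?_
    rw [Matrix.one_apply, Matrix.one_apply]
    split_ifs
    · rfl
    · rfl
  have hset : IsClopen {t | w t * star (w t) = 1} := by
    constructor
    · exact isClosed_eq (hw.mul hw.star) continuous_const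
    · have e : {t | w t * star (w t) = 1} = {t | ‖1 - w t * star (w t)‖ < 1} := by
        ext t
        constructor
        · intro h
          show ‖1 - w t * star (w t)‖ < 1
          have h' : w t * star (w t) = 1 := h
          rw [h', sub_self, norm_zero]
          norm_num
        · intro h
          have h' : ‖1 - w t * star (w t)‖ < 1 := h
          have hid : (1 - w t * star (w t)) * (1 - w t * star (w t)) = 1 - w t * star (w t) := by
            have : w t * star (w t) * (w t * star (w t)) = w t * star (w t) := by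
              rw [mul_assoc, ← mul_assoc (star (w t)), hw1, one_mul]
            rw [sub_mul, one_mul, mul_sub, mul_one, this, sub_self, sub_zero]
          have h8 := norm_mul_le (1 - w t * star (w t)) (1 - w t * star (w t))
          rw [hid] at h8
          have h9 : ‖1 - w t * star (w t)‖ = 0 := by
            nlinarith [norm_nonneg (1 - w t * star (w t))]
          exact (sub_eq_zero.1 (norm_eq_zero.1 h9)).symm
      rw [e]
      exact isOpen_lt (continuous_const.sub (hw.mul hw.star)).norm continuous_const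
  have h0 : (0 : unitInterval) ∈ {t | w t * star (w t) = 1} := by
    have hc : ∀ i j, ∃ c : ℂ, ev 0 (v i j) = algebraMap ℂ BH c := by
      intro i j
      obtain ⟨c, hc⟩ := (v i j).2.2
      exact ⟨c, by rw [Algebra.algebraMap_eq_smul_one]; exact hc⟩
    choose c hc using hc
    let M : Matrix (Fin n) (Fin n) ℂ := Matrix.of c
    have hnt : Nontrivial BH := ⟨1, 0, one_ne_zero_BH⟩
    have hinj : Function.Injective (algebraMap ℂ BH) := (algebraMap ℂ BH).injective
    have hM : w 0 = (algebraMap ℂ BH).mapMatrix M := by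
      refine Matrix.ext fun i j => ?_
      exact hc i j
    have hMs : star (w 0) = (algebraMap ℂ BH).mapMatrix (star M) := by
      rw [hM]
      refine Matrix.ext fun i j => ?_
      show star (algebraMap ℂ BH (M j i)) = algebraMap ℂ BH (star (M j i))
      rw [algebraMap_star_comm]
    have h5 : star M * M = 1 := by
      have h6 := hw1 0
      rw [hMs, hM, ← map_mul] at h6
      have h7 : (algebraMap ℂ BH).mapMatrix (star M * M) = (algebraMap ℂ BH).mapMatrix 1 := by
        rw [h6, map_one]
      refine Matrix.ext fun i j => hinj ?_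
      exact congrFun (congrFun h7 i) j
    show w 0 * star (w 0) = 1
    rw [hMs, hM, ← map_mul, mul_eq_one_comm.1 h5, map_one]
  have huniv := hset.eq_univ ⟨0, h0⟩
  ext i j : 1
  apply CA_ext
  intro t
  have ht : t ∈ {t | w t * star (w t) = 1} := by rw [huniv]; trivial
  have h2 := congrFun (congrFun ht i) j
  rw [Matrix.mul_apply] at h2
  simp only [Matrix.star_apply] at h2
  rw [Matrix.mul_apply, map_sum]
  simp only [map_mul, Matrix.star_apply, map_star]
  refine h2.trans ?_
  rw [Matrix.one_apply, Matrix.one_apply]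
  split_ifs
  · rfl
  · rfl

end sf

end Pool.Agent.TH251.TI
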